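import Pool.Agent.H18.PB.Skel

/-!
# The chart, general dimension

`CHTStmt m`: the fans of near-maximisers lie within `2 ^ (-h)` of hyperplanes which are graphs,
with slopes at most `1`, over the coordinates different from a fixed coordinate `i₁`.
-/

set_option autoImplicit false

namespace Pool.Agent.H60.PB

open Finset Real
open Pool.Agent.H49.Ent Pool.Agent.H32.Dense Pool.STK Pool.KA Pool.KSAT Pool.K2S Pool.PB

/-- A normal vector of the span of `k` vectors in dimension `k + 1`, with a largest component. -/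
theorem exists_normal {k : ℕ} (B : Fin k → Fin (k + 1) → ℝ) :
    ∃ (ν : Fin (k + 1) → ℝ) (i : Fin (k + 1)), ν i = 1 ∧ (∀ j, |ν j| ≤ 1) ∧
      ∀ l, ∑ j, ν j * B l j = 0 := by
  classical
  obtain ⟨f, hf⟩ : ∃ f : (Fin (k + 1) → ℝ) →ₗ[ℝ] (Fin k → ℝ),
      ∀ ν l, f ν l = ∑ j, ν j * B l j := by
    refine ⟨(Matrix.of B).mulVecLin, fun ν l => ?_⟩
    simp [Matrix.mulVec, dotProduct, mul_comm]
  have hker : LinearMap.ker f ≠ ⊥ := LinearMap.ker_ne_bot_of_finrank_lt (by simp)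
  obtain ⟨ν, hν, hν0⟩ := (Submodule.ne_bot_iff _).1 hker
  rw [LinearMap.mem_ker] at hν
  obtain ⟨i, -, hi⟩ := Finset.exists_max_image Finset.univ (fun j => |ν j|)
    ⟨0, Finset.mem_univ _⟩
  have hi0 : ν i ≠ 0 := by
    intro h
    apply hν0
    ext j
    have := hi j (Finset.mem_univ _)
    rw [h, abs_zero] at this
    exact abs_eq_zero.1 (le_antisymm this (abs_nonneg _))
  refine ⟨fun j => ν j / ν i, i, div_self hi0, fun j => ?_, fun l => ?_⟩
  · rw [abs_div]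
    exact div_le_one_of_le₀ (hi j (Finset.mem_univ _)) (abs_nonneg _)
  · have h1 := hf ν l
    rw [hν] at h1
    have h2 : ∑ j, ν j / ν i * B l j = (∑ j, ν j * B l j) / ν i := by
      rw [Finset.sum_div]
      exact Finset.sum_congr rfl fun j _ => by ring
    rw [h2, ← h1]
    simp

theorem ch_hered {m J : ℕ} (F : Fam m J) (i₁ : Fin m) (h : ℕ) : Hered (Ch F i₁ h) := by
  rintro A B hBA ⟨n, s, hns⟩
  exact ⟨n, s, fun ω hω => hns ω (hBA ω hω)⟩

/-- Some event of a finite cover is large. -/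
theorem exists_large {Ω : Type} [Fintype Ω] {p : Ω → ℝ} {n : ℕ} (hn : 0 < n)
    {A : Ω → Prop} (ch : Ω → Fin n) :
    ∃ i : Fin n, Pe p A / n ≤ Pe p (fun ω => A ω ∧ ch ω = i) := by
  classical
  by_contra hcon
  push Not at hcon
  have h1 : Pe p A = ∑ i, Pe p (fun ω => A ω ∧ ch ω = i) := by
    rw [Pe_eq]
    simp only [Pe_eq]
    rw [Finset.sum_comm]
    refine Finset.sum_congr rfl fun ω _ => ?_
    by_cases hA : A ω
    · simp [hA]
    · simp [hA]
  have h2 : ∑ i : Fin n, Pe p (fun ω => A ω ∧ ch ω = i) < ∑ _i : Fin n, Pe p A / n :=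
    Finset.sum_lt_sum_of_nonempty ⟨⟨0, hn⟩, Finset.mem_univ _⟩ fun i _ => hcon i
  rw [← h1, Finset.sum_const, Finset.card_univ, Fintype.card_fin, nsmul_eq_mul,
    mul_div_cancel₀ _ (by exact_mod_cast hn.ne')] at h2
  exact lt_irrefl _ h2

theorem cht_gen (m : ℕ) : CHTStmt m := by
  classical
  intro a R ha hR hU
  rcases m with _ | k
  · refine ⟨1, one_pos, ?_⟩
    refine Claim.of (τ := R / 2) (by linarith) 1 fun J hJ F A hS => ?_
    exfalso
    obtain ⟨-, hM, -, -⟩ := hS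
    have h2 := hM.2
    have h3 : F.Ga a = 0 := by
      have hp := F.isLaw
      unfold Fam.Ga
      rw [CH_eq_zero hp.nonneg (fun _ _ _ _ _ => Subsingleton.elim _ _),
        CH_eq_zero hp.nonneg (fun _ _ _ _ _ => Subsingleton.elim _ _)]
      ring
    rw [h3] at h2
    have hJr : (1 : ℝ) ≤ J := by exact_mod_cast hJ
    nlinarith
  obtain ⟨c, hc, hlin⟩ := lin_claim aop k ha.le hR hU
  obtain ⟨c₁, hc₁⟩ : ∃ c₁, c₁ = c / 2 := ⟨_, rfl⟩
  have hc₁0 : 0 < c₁ := by rw [hc₁]; linarith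
  refine ⟨c₁, hc₁0, Claim.mp ?_ hlin⟩
  refine Claim.one ⟨k + 1, fun J F i => Ch F i ⌊c₁ * J⌋₊,
    fun _ _ _ => ch_hered _ _ _⟩ fun κ hκ => ?_
  -- `2 ^ s ≥ k + 1` digits are lost
  obtain ⟨s, hs⟩ : ∃ s, s = Nat.clog 2 (k + 1) := ⟨_, rfl⟩
  have hs1 : ((k + 1 : ℕ) : ℝ) ≤ 2 ^ s := by
    have : k + 1 ≤ 2 ^ s := by rw [hs]; exact Nat.le_pow_clog (by norm_num) _
    exact_mod_cast this
  obtain ⟨J₁, hJ₁⟩ := exists_nat_gt (Real.log (k + 1 : ℕ) / κ + 2 * s / c)
  refine ⟨1, one_pos, J₁, fun J hJ F A _ hSb hH => ?_⟩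
  have hJr : Real.log (k + 1 : ℕ) / κ + 2 * s / c < J := hJ₁.trans_le (by exact_mod_cast hJ)
  have hk1 : (1 : ℝ) ≤ ((k + 1 : ℕ) : ℝ) := by exact_mod_cast Nat.succ_le_succ (Nat.zero_le k)
  have q1 : 0 ≤ Real.log (k + 1 : ℕ) / κ := div_nonneg (Real.log_nonneg hk1) hκ.le
  have q2 : 0 ≤ 2 * s / c := by positivity
  have k1 : Real.log (k + 1 : ℕ) ≤ κ * J := by
    have : Real.log (k + 1 : ℕ) / κ < J := by linarith
    rw [div_lt_iff₀ hκ] at this
    linarith
  have k2 : ((⌊c₁ * J⌋₊ + s : ℕ) : ℝ) ≤ c * J := by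
    push_cast
    have h1 : (⌊c₁ * J⌋₊ : ℝ) ≤ c₁ * J := Nat.floor_le (by positivity)
    have h3 : 2 * s < J * c := by
      have : 2 * s / c < J := by linarith
      rwa [div_lt_iff₀ hc] at this
    rw [hc₁] at h1
    rw [hc₁]
    linarith
  obtain ⟨ζ, hζ⟩ := hH (⌊c₁ * J⌋₊ + s) k2
  have hp := F.isLaw
  have hnor : ∀ y : (Fin (k + 1) → ℤ) × (ℕ × F.ζ), ∃ (ν : Fin (k + 1) → ℝ) (i : Fin (k + 1)),
      ν i = 1 ∧ (∀ j, |ν j| ≤ 1) ∧ ∀ l, ∑ j, ν j * (ζ y).2 l j = 0 := fun y => exists_normal _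
  choose ν ci hν1 hν2 hν3 using hnor
  obtain ⟨i, hi⟩ := exists_large (p := F.p) (n := k + 1) (by omega) (A := A)
    (fun ω => ci (Fam.pt F ω))
  refine ⟨i, (hSb i).of_sub (B := fun ω => A ω ∧ ci (Fam.pt F ω) = i) (fun ω hω => hω.1) ?_ ?_⟩
  · refine le_trans ?_ hi
    rw [div_eq_mul_inv, mul_comm]
    refine mul_le_mul_of_nonneg_left ?_ (Pe_nonneg hp A)
    rw [← Real.exp_log (lt_of_lt_of_le one_pos hk1), ← Real.exp_neg]
    exact Real.exp_le_exp.2 (by linarith)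
  · refine ⟨fun y => ∑ j, ν y j * (ζ y).1 j, fun y j => if j = i then 0 else - ν y j,
      fun ω hω => ⟨by simp, fun j => ?_, ?_⟩⟩
    · show |if j = i then (0 : ℝ) else - ν (Fam.pt F ω) j| ≤ 1
      split_ifs
      · simp
      · rw [abs_neg]; exact hν2 _ _
    · obtain ⟨y, hy⟩ : ∃ y, y = Fam.pt F ω := ⟨_, rfl⟩
      obtain ⟨c', hc'⟩ := hζ ω hω.1
      have hci := hω.2
      rw [← hy] at hc' hci ⊢
      have e1 : F.d ω i - ∑ j, ν y j * (ζ y).1 j -
          ∑ j, (if j = i then (0 : ℝ) else - ν y j) * F.d ω j =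
          ∑ j, ν y j * (F.d ω j - (ζ y).1 j - ∑ l, c' l * (ζ y).2 l j) := by
        have e2 : ∑ j, ν y j * ∑ l, c' l * (ζ y).2 l j = 0 := by
          simp only [Finset.mul_sum]
          rw [Finset.sum_comm]
          refine Finset.sum_eq_zero fun l _ => ?_
          have := hν3 y l
          calc ∑ j, ν y j * (c' l * (ζ y).2 l j) = c' l * ∑ j, ν y j * (ζ y).2 l j := by
                rw [Finset.mul_sum]
                exact Finset.sum_congr rfl fun j _ => by ring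
            _ = 0 := by rw [this, mul_zero]
        have e3 : ∑ j, ν y j * F.d ω j = F.d ω i - ∑ j, (if j = i then (0 : ℝ) else - ν y j) *
            F.d ω j := by
          have h4 : F.d ω i = ∑ j, (if j = i then F.d ω j else 0) := by simp
          rw [h4, ← Finset.sum_sub_distrib]
          refine Finset.sum_congr rfl fun j _ => ?_
          by_cases h : j = i
          · have : ν y j = 1 := by rw [h, ← hci]; exact hν1 y
            rw [if_pos h, if_pos h, this]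
            ring
          · rw [if_neg h, if_neg h]
            ring
        simp only [mul_sub, Finset.sum_sub_distrib]
        rw [e2, e3]
        ring
      rw [e1]
      calc |∑ j, ν y j * (F.d ω j - (ζ y).1 j - ∑ l, c' l * (ζ y).2 l j)|
          ≤ ∑ j, |ν y j * (F.d ω j - (ζ y).1 j - ∑ l, c' l * (ζ y).2 l j)| :=
            Finset.abs_sum_le_sum_abs _ _
        _ ≤ ∑ _j : Fin (k + 1), 1 / 2 ^ (⌊c₁ * J⌋₊ + s) := by
            refine Finset.sum_le_sum fun j _ => ?_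
            rw [abs_mul]
            calc _ ≤ 1 * |F.d ω j - (ζ y).1 j - ∑ l, c' l * (ζ y).2 l j| :=
                  mul_le_mul_of_nonneg_right (hν2 y j) (abs_nonneg _)
              _ ≤ _ := by rw [one_mul]; exact hc' j
        _ = ((k + 1 : ℕ) : ℝ) * (1 / 2 ^ (⌊c₁ * J⌋₊ + s)) := by
            rw [Finset.sum_const, Finset.card_univ, Fintype.card_fin, nsmul_eq_mul]
        _ ≤ 2 ^ s * (1 / 2 ^ (⌊c₁ * J⌋₊ + s)) :=
            mul_le_mul_of_nonneg_right hs1 (by positivity)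
        _ = 1 / 2 ^ ⌊c₁ * J⌋₊ := by
            rw [pow_add]
            field_simp

end Pool.Agent.H60.PB
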