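import Pool.Agent.H60.PB.CHT
import Pool.Agent.H18.PB.Skel2
import Pool.Agent.H5.K2.Half

/-!
# The chart for a class of families

`chs_of_hyp`: if in a class the fans lie within `2 ^ (-h)` of hyperplanes, then there is a chart.
-/

set_option autoImplicit false

namespace Pool.Agent.H60.PB

open Finset Real
open Pool.Agent.H49.Ent Pool.Agent.H32.Dense Pool.STK Pool.KA Pool.KSAT Pool.K2S Pool.PB

/-- A chart from hyperplanes, for one family and one event. -/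
theorem chart_core {k s J h : ℕ} (hs : ((k + 1 : ℕ) : ℝ) ≤ 2 ^ s) (F : Fam (k + 1) J)
    (A : F.Ω → Prop) (hH : Hyp (1 / 2 ^ (h + s)) (Fam.pt F) F.d A) :
    ∃ ci : (Fin (k + 1) → ℤ) × (ℕ × F.ζ) → Fin (k + 1), ∀ i, Ch F i h
      (fun ω => A ω ∧ ci (Fam.pt F ω) = i) := by
  classical
  obtain ⟨ζ, hζ⟩ := hH
  have hnor : ∀ y : (Fin (k + 1) → ℤ) × (ℕ × F.ζ), ∃ (ν : Fin (k + 1) → ℝ) (i : Fin (k + 1)),
      ν i = 1 ∧ (∀ j, |ν j| ≤ 1) ∧ ∀ l, ∑ j, ν j * (ζ y).2 l j = 0 := fun y => exists_normal _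
  choose ν ci hν1 hν2 hν3 using hnor
  refine ⟨ci, fun i => ⟨fun y => ∑ j, ν y j * (ζ y).1 j, fun y j => if j = i then 0 else - ν y j,
      fun ω hω => ⟨by simp, fun j => ?_, ?_⟩⟩⟩
  · show |if j = i then (0 : ℝ) else - ν (Fam.pt F ω) j| ≤ 1
    split_ifs
    · simp
    · rw [abs_neg]; exact hν2 _ _
  · obtain ⟨y, hy⟩ : ∃ y, y = Fam.pt F ω := ⟨_, rfl⟩
    obtain ⟨c', hc'⟩ := hζ ω hω.1
    have hci := hω.2
    rw [← hy] at hc' hci ⊢
    have e1 : F.d ω i - ∑ j, ν y j * (ζ y).1 j -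
        ∑ j, (if j = i then (0 : ℝ) else - ν y j) * F.d ω j =
        ∑ j, ν y j * (F.d ω j - (ζ y).1 j - ∑ l, c' l * (ζ y).2 l j) := by
      have e2 : ∑ j, ν y j * ∑ l, c' l * (ζ y).2 l j = 0 := by
        simp only [Finset.mul_sum]
        rw [Finset.sum_comm]
        refine Finset.sum_eq_zero fun l _ => ?_
        have := hν3 y l
        calc ∑ j, ν y j * (c' l * (ζ y).2 l j) = c' l * ∑ j, ν y j * (ζ y).2 l j := by
              rw [Finset.mul_sum]
              exact Finset.sum_congr rfl fun j _ => by ring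
          _ = 0 := by rw [this, mul_zero]
      have e3 : ∑ j, ν y j * F.d ω j = F.d ω i - ∑ j, (if j = i then (0 : ℝ) else - ν y j) *
          F.d ω j := by
        have h4 : F.d ω i = ∑ j, (if j = i then F.d ω j else 0) := by simp
        rw [h4, ← Finset.sum_sub_distrib]
        refine Finset.sum_congr rfl fun j _ => ?_
        by_cases h : j = i
        · have : ν y j = 1 := by rw [h, ← hci]; exact hν1 y
          rw [if_pos h, if_pos h, this]
          ring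
        · rw [if_neg h, if_neg h]
          ring
      simp only [mul_sub, Finset.sum_sub_distrib]
      rw [e2, e3]
      ring
    rw [e1]
    calc |∑ j, ν y j * (F.d ω j - (ζ y).1 j - ∑ l, c' l * (ζ y).2 l j)|
        ≤ ∑ j, |ν y j * (F.d ω j - (ζ y).1 j - ∑ l, c' l * (ζ y).2 l j)| :=
          Finset.abs_sum_le_sum_abs _ _
      _ ≤ ∑ _j : Fin (k + 1), 1 / 2 ^ (h + s) := by
          refine Finset.sum_le_sum fun j _ => ?_
          rw [abs_mul]
          calc _ ≤ 1 * |F.d ω j - (ζ y).1 j - ∑ l, c' l * (ζ y).2 l j| :=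
                mul_le_mul_of_nonneg_right (hν2 y j) (abs_nonneg _)
            _ ≤ _ := by rw [one_mul]; exact hc' j
      _ = ((k + 1 : ℕ) : ℝ) * (1 / 2 ^ (h + s)) := by
          rw [Finset.sum_const, Finset.card_univ, Fintype.card_fin, nsmul_eq_mul]
      _ ≤ 2 ^ s * (1 / 2 ^ (h + s)) :=
          mul_le_mul_of_nonneg_right hs (by positivity)
      _ = 1 / 2 ^ h := by
          rw [pow_add]
          field_simp

/-- **The chart of a class**, from hyperplanes. -/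
theorem chs_of_hyp {k : ℕ} {S : FCl (k + 1)}
    (hyp : ∃ c : ℝ, 0 < c ∧ Clg S (fun J F A => ∀ h : ℕ, (h : ℝ) ≤ c * J →
      Hyp (1 / 2 ^ h) (Fam.pt F) F.d A)) : CHS S := by
  classical
  obtain ⟨c, hc, hlin⟩ := hyp
  obtain ⟨c₁, hc₁⟩ : ∃ c₁, c₁ = c / 2 := ⟨_, rfl⟩
  have hc₁0 : 0 < c₁ := by rw [hc₁]; linarith
  refine ⟨c₁, hc₁0, Clg.mp ?_ hlin⟩
  refine Clg.one ⟨k + 1, fun J F i => Ch F i ⌊c₁ * J⌋₊,
    fun _ _ _ => ch_hered _ _ _⟩ fun κ hκ => ?_
  -- `2 ^ s ≥ k + 1` digits are lost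
  obtain ⟨s, hs⟩ : ∃ s, s = Nat.clog 2 (k + 1) := ⟨_, rfl⟩
  have hs1 : ((k + 1 : ℕ) : ℝ) ≤ 2 ^ s := by
    have : k + 1 ≤ 2 ^ s := by rw [hs]; exact Nat.le_pow_clog (by norm_num) _
    exact_mod_cast this
  obtain ⟨J₁, hJ₁⟩ := exists_nat_gt (Real.log (k + 1 : ℕ) / κ + 2 * s / c)
  refine ⟨1, one_pos, J₁, fun J hJ F A _ hSb hH => ?_⟩
  have hJr : Real.log (k + 1 : ℕ) / κ + 2 * s / c < J := hJ₁.trans_le (by exact_mod_cast hJ)
  have hk1 : (1 : ℝ) ≤ ((k + 1 : ℕ) : ℝ) := by exact_mod_cast Nat.succ_le_succ (Nat.zero_le k)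
  have q1 : 0 ≤ Real.log (k + 1 : ℕ) / κ := div_nonneg (Real.log_nonneg hk1) hκ.le
  have q2 : 0 ≤ 2 * s / c := by positivity
  have k1 : Real.log (k + 1 : ℕ) ≤ κ * J := by
    have : Real.log (k + 1 : ℕ) / κ < J := by linarith
    rw [div_lt_iff₀ hκ] at this
    linarith
  have k2 : ((⌊c₁ * J⌋₊ + s : ℕ) : ℝ) ≤ c * J := by
    push_cast
    have h1 : (⌊c₁ * J⌋₊ : ℝ) ≤ c₁ * J := Nat.floor_le (by positivity)
    have h3 : 2 * s < J * c := by
      have : 2 * s / c < J := by linarith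
      rwa [div_lt_iff₀ hc] at this
    rw [hc₁] at h1
    rw [hc₁]
    linarith
  obtain ⟨ci, hci⟩ := chart_core hs1 F A (hH (⌊c₁ * J⌋₊ + s) k2)
  have hp := F.isLaw
  obtain ⟨i, hi⟩ := exists_large (p := F.p) (n := k + 1) (by omega) (A := A)
    (fun ω => ci (Fam.pt F ω))
  refine ⟨i, (hSb i).of_sub (B := fun ω => A ω ∧ ci (Fam.pt F ω) = i) (fun ω hω => hω.1) ?_
    (hci i)⟩
  refine le_trans ?_ hi
  rw [div_eq_mul_inv, mul_comm]
  refine mul_le_mul_of_nonneg_left ?_ (Pe_nonneg hp A)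
  rw [← Real.exp_log (lt_of_lt_of_le one_pos hk1), ← Real.exp_neg]
  exact Real.exp_le_exp.2 (by linarith)

/-- A claim for the event is a claim for all its parts of proportion at least `1 / 2`. -/
theorem clg_half {m : ℕ} {S : FCl m} {Φ : Stat m} (hc : Clg S Φ) :
    Clg S (fun _ F A => ∀ A₁ : F.Ω → Prop, Sub A₁ A → Pe F.p A / 2 ≤ Pe F.p A₁ → Φ _ F A₁) := by
  induction hc with
  | base τ hτ J₁ h =>
    obtain ⟨J₂, hJ₂⟩ := exists_nat_gt (2 * Real.log 2 / τ)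
    refine Clg.base (τ / 2) (by positivity) (max J₁ J₂) fun J hJ F A hA A₁ _ hP => ?_
    have h1 : J₁ ≤ J := (le_max_left _ _).trans hJ
    have h2 : (J₂ : ℝ) ≤ J := by exact_mod_cast (le_max_right J₁ J₂).trans hJ
    have h3 : 2 * Real.log 2 / τ < J := lt_of_lt_of_le hJ₂ h2
    rw [div_lt_iff₀ hτ] at h3
    exact h J h1 F A₁ ⟨S.mono (by linarith) hA.1, half_exp (by linarith) hA.2 hP⟩
  | step L h ih =>
    refine Clg.step L fun κ hκ => ?_
    obtain ⟨J₂, hJ₂⟩ := exists_nat_gt (2 * Real.log 2 / κ)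
    refine Clg.mono (J₂ := J₂) (ih (κ / 2) (by positivity)) ?_
    intro J hJ F A h1 h2 A₁ hsub hP
    refine h1 A₁ hsub hP fun i => ?_
    have h3 := h2 i
    have h4 : (J₂ : ℝ) ≤ J := by exact_mod_cast hJ
    have h5 : 2 * Real.log 2 / κ < J := lt_of_lt_of_le hJ₂ h4
    rw [div_lt_iff₀ hκ] at h5
    have h6 : Real.exp (-Real.log 2) * Pe F.p A ≤ Pe F.p A₁ := by
      rw [Real.exp_neg, Real.exp_log (by norm_num)]
      linarith
    have h7 := h3.sub (L.her J F i) hsub h6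
    exact h7.mono F.isLaw (by linarith)

end Pool.Agent.H60.PB
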