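import Pool.Agent.H60.PB.CHS
import Pool.Agent.H13.K2S.Lin

/-!
# Flat fans from the tail

`hyp_of_tls`: in a class whose tail is not full the fans lie within `2 ^ (-h)` of hyperplanes, for
every `h` up to a fixed proportion of the resolution; `chs_of_tls`: hence there is a chart.
(The proof is the one of `lin_thm` of helper13, with the tail as hypothesis.)
-/

set_option autoImplicit false

namespace Pool.Agent.H60.PB

open Finset Real
open Pool.Agent.H49.Ent Pool.Agent.H32.Dense Pool.STK Pool.KA Pool.KSAT Pool.K2S Pool.PB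

variable {m J : ℕ}

open Classical in
/-- **Fans at exact points are flat** (in codimension one), if the tail is not full. -/
theorem hyp_core (k : ℕ) {g : ℝ} (hg0 : 0 < g) :
    ∃ c₁ > 0, ∀ κ > 0, ∃ τ > 0, ∃ J₁ : ℕ, ∀ J ≥ J₁, ∀ F : Fam (k + 1) J, ∀ A : F.Ω → Prop,
      F.Tr → F.Tm (τ * J) → F.Rb (τ * J) → Real.exp (-(τ * J)) ≤ Pe F.p A →
      (∀ A₁ : F.Ω → Prop, Sub A₁ A → Pe F.p A / 2 ≤ Pe F.p A₁ → ∀ P : ℕ, P ≤ J → J ≤ 2 * P →
        CH (Pool.Agent.H49.Ent.cond F.p A₁ True) (F.X J) (fun ω => (F.X P ω, F.W ω)) ≤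
          (((k + 1 : ℕ) : ℝ) * Real.log 2 - g) * ((J : ℝ) - P) + g / 64 * J) →
      ∀ h : ℕ, (h : ℝ) ≤ c₁ * J →
      Stb F.p (κ * J) A (Hyp (1 / 2 ^ h) (Fam.pt F) F.d) → Hyp (1 / 2 ^ h) (Fam.pt F) F.d A := by
  obtain ⟨C₁, hC₁, hrows⟩ := rows_thm k
  have hl2 : 0 < Real.log 2 := Real.log_pos (by norm_num)
  have hk : (0 : ℝ) ≤ k := by positivity
  obtain ⟨N, hN⟩ := exists_nat_gt (16 * ((k + 2) * (k + 1) * Real.log 2) / g)
  have hN0 : (0 : ℝ) < N := lt_of_le_of_lt (by positivity) hN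
  have hN2 : (k + 2) * (k + 1) * Real.log 2 ≤ g / 16 * N := by
    rw [div_lt_iff₀ hg0] at hN
    linarith
  obtain ⟨η, hη⟩ : ∃ η, η = g / 128 := ⟨_, rfl⟩
  have hη0 : 0 < η := by rw [hη]; positivity
  obtain ⟨c₁, hc⟩ : ∃ c₁, c₁ = g / (64 * ((k + 1) * (k + 2) * Real.log 2 * N)) := ⟨_, rfl⟩
  have hc0 : 0 < c₁ := by rw [hc]; positivity
  obtain ⟨c₂, hc2⟩ : ∃ c₂, c₂ = min c₁ (1 / (8 * N * (k + 2))) := ⟨_, rfl⟩
  have hc20 : 0 < c₂ := by rw [hc2]; positivity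
  refine ⟨c₂, hc20, fun κ hκ => ?_⟩
  -- the constant `τ`
  obtain ⟨τ', hτ'⟩ : ∃ τ', τ' = g / (64 * (N * (k + 3) + 1)) := ⟨_, rfl⟩
  have hτ'0 : 0 < τ' := by rw [hτ']; positivity
  obtain ⟨τ, hτ⟩ : ∃ τ, τ = τ' / 7 := ⟨_, rfl⟩
  have hτ0 : 0 < τ := by rw [hτ]; positivity
  obtain ⟨δ, hδ⟩ : ∃ δ, δ = (N + 1 : ℝ) * cc (k + 1) + 1 := ⟨_, rfl⟩
  have hcc : 0 ≤ cc (k + 1) := by
    unfold cc
    exact mul_nonneg (by positivity) (Real.log_nonneg (by norm_num))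
  have hδ0 : 0 < δ := by rw [hδ]; positivity
  -- how large `J` has to be
  obtain ⟨Cst, hCst⟩ : ∃ Cst, Cst = N * C₁ + (k + 2) * C₁ + 0 +
    5 * ((k + 1) * (k + 2) * Real.log 2 * N) := ⟨_, rfl⟩
  obtain ⟨Lρ, hLρ⟩ : ∃ L, L = Real.log ((k + 2) ^ 2 * Real.log 2 * 64 / g + 1) := ⟨_, rfl⟩
  have hLρ0 : 0 ≤ Lρ := by
    rw [hLρ]
    exact Real.log_nonneg (by linarith [show 0 ≤ (k + 2) ^ 2 * Real.log 2 * 64 / g by positivity])
  obtain ⟨J₁, hJ₁⟩ := exists_nat_gt (64 * Cst / g + Real.log 2 / τ +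
    (4 * δ + 4 * Real.log 2 + 4 * Lρ) / κ + 8 * N + 80 * N * (k + 2) + 1)
  refine ⟨τ, hτ0, J₁, ?_⟩
  intro J hJ F A hTr hTmF hRb hPA htail h hh hstab
  by_contra hnot
  have hJr : (J₁ : ℝ) ≤ J := by exact_mod_cast hJ
  have t1 : 0 ≤ 64 * Cst / g := by rw [hCst]; positivity
  have t2 : 0 ≤ Real.log 2 / τ := by positivity
  have t3 : 0 ≤ (4 * δ + 4 * Real.log 2 + 4 * Lρ) / κ := by positivity
  have t5 : 0 ≤ 80 * N * ((k : ℝ) + 2) := by positivity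
  have t6 : 0 ≤ 8 * (N : ℝ) := by positivity
  have hJ0 : (0 : ℝ) < J := by linarith
  have j1 : 64 * Cst / g < J := by linarith
  have j2 : Real.log 2 / τ < J := by linarith
  have j3 : (4 * δ + 4 * Real.log 2 + 4 * Lρ) / κ < J := by linarith
  have j4 : 8 * (N : ℝ) < J := by linarith
  have j6 : 80 * N * ((k : ℝ) + 2) < J := by linarith
  rw [div_lt_iff₀ hg0] at j1
  rw [div_lt_iff₀ hτ0] at j2
  rw [div_lt_iff₀ hκ] at j3
  have hp := F.isLaw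
  have hA0 : 0 < Pe F.p A := lt_of_lt_of_le (Real.exp_pos _) hPA
  -- the windows
  obtain ⟨K, hK⟩ : ∃ K, K = J / (2 * N) := ⟨_, rfl⟩
  have hN0' : 0 < N := by exact_mod_cast hN0
  have hK1 : N * K ≤ J / 2 := by
    rw [hK, ← Nat.div_div_eq_div_mul]
    exact Nat.mul_div_le _ _
  have hK2 : (J : ℝ) < 2 * N * (K + 1) := by
    have := Nat.lt_mul_div_succ J (show 0 < 2 * N by omega)
    rw [← hK] at this
    exact_mod_cast this
  have hK3 : J / 4 ≤ (N : ℝ) * K := by linarith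
  have hK4 : N * K ≤ J := hK1.trans (Nat.div_le_self _ _)
  have hK4r : (N : ℝ) * K ≤ J := by exact_mod_cast hK4
  obtain ⟨w₀, hw₀⟩ : ∃ w, w = J - N * K := ⟨_, rfl⟩
  have hw1 : w₀ + N * K = J := by omega
  have hw2 : J ≤ 2 * w₀ := by omega
  have hw2r : (J : ℝ) ≤ 2 * w₀ := by exact_mod_cast hw2
  have hw3 : w₀ ≤ J := by omega
  -- labels
  obtain ⟨l, hl⟩ : ∃ l : F.Ω → Fin (N + 1) → (ℕ × (Fin (k + 1) → ℤ)) × F.ζ,
    l = fun ω (i : Fin (N + 1)) => F.c (w₀ + (i : ℕ) * K) ω := ⟨_, rfl⟩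
  have hlw : ∀ i : Fin (N + 1), w₀ + (i : ℕ) * K ≤ J := by
    intro i
    have : (i : ℕ) * K ≤ N * K := Nat.mul_le_mul_right K (by omega)
    omega
  have hres : ∀ B : F.Ω → Prop, 0 < Pe F.p B →
      CH (Pool.Agent.H49.Ent.cond F.p B True) l (Fam.pt F) ≤ δ := by
    intro B hB
    have hlaw := isLaw_cond hp hB
    have h1 := CH_pi_le hlaw.nonneg (c := cc (k + 1)) (Fam.pt F) (N + 1)
      (fun (i : Fin (N + 1)) ω => F.c (w₀ + (i : ℕ) * K) ω) (fun i => Rows.CH_c_pt (F.res B True hlaw) (hlw i))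
    push_cast at h1
    rw [hl, hδ]
    linarith
  have hκJ : 0 ≤ κ * J := by positivity
  obtain ⟨s1, s2⟩ := Stb.refine hp hstab hnot hA0 hδ0 (fun B _ hB => hres B hB)
    (by linarith)
  -- cleaning
  obtain ⟨κ', hκ'⟩ : ∃ κ', κ' = κ * J - (2 * δ + Real.log 2) := ⟨_, rfl⟩
  rw [← hκ'] at s1
  have hκ'1 : κ * J / 2 ≤ κ' := by rw [hκ']; linarith
  have hκ'2 : 2 * Real.log 2 ≤ κ' := by linarith
  obtain ⟨c1, c2⟩ := Stb.clean hp hκ'2 hA0 s1 s2 rfl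
  obtain ⟨Nb, hNb⟩ : ∃ Nb : F.Ω → Prop, Nb = Pop (Pool.Agent.H49.Ent.cond F.p A True) F.d
    (fun ω => (Fam.pt F ω, l ω)) (fun D (s : (Fin (k + 1) → ℝ) × (Fin k → Fin (k + 1) → ℝ)) =>
      ∃ c : Fin k → ℝ, ∀ j, |D j - s.1 j - ∑ i, c i * s.2 i j| ≤ 1 / 2 ^ h)
    (Real.exp (-(κ' / 2))) := ⟨_, rfl⟩
  rw [← hNb] at c1 c2
  obtain ⟨A', hA'⟩ : ∃ A' : F.Ω → Prop, A' = fun ω => A ω ∧ ¬ Nb ω := ⟨_, rfl⟩
  have c2' := c2
  rw [← hA'] at c2'
  have hPA' : Real.exp (-((2 * τ) * J)) ≤ Pe F.p A' := by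
    have d1 := Pe_diff c1
    rw [hA']
    refine le_trans ?_ d1
    have d2 : Real.exp (-(2 * τ * J)) ≤ Real.exp (-Real.log 2) * Real.exp (-(τ * J)) := by
      rw [← Real.exp_add]
      exact Real.exp_le_exp.2 (by linarith)
    exact d2.trans (mul_le_mul_of_nonneg_left hPA (Real.exp_pos _).le)
  have hsubA : Sub A' A := by
    intro ω hω
    rw [hA'] at hω
    exact hω.1
  have hPhalf : Pe F.p A / 2 ≤ Pe F.p A' := by
    have d1 := Pe_diff c1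
    rw [hA']
    refine le_trans (le_of_eq ?_) d1
    rw [Real.exp_neg, Real.exp_log (by norm_num)]
    ring
  have htA := htail A' hsubA hPhalf
  obtain ⟨hlaw, -, -, hTm0, -⟩ := res_thm (k + 1) J F 1 (τ * J) (2 * τ * J) (τ * J) zero_le_one
    (by positivity) (by positivity) hTr hRb hTmF A' hPA'
  have hTm : (F.res A' True hlaw).Tm (τ' * J) := by
    unfold Fam.Tm at hTm0 ⊢
    refine le_trans (le_of_eq ?_) hTm0
    rw [hτ]
    ring
  have h3 := htA w₀ hw3 hw2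
  -- rows
  obtain ⟨ρ, hρ⟩ : ∃ ρ, ρ = Real.exp (-(κ' / 2)) := ⟨_, rfl⟩
  have hKr : (J : ℝ) / (2 * N) - 1 < K := by
    have : (J : ℝ) / (2 * N) < K + 1 := by
      rw [div_lt_iff₀ (by positivity)]
      linarith
    linarith
  have hhc : (h : ℝ) ≤ 1 / (8 * N * (k + 2)) * J := by
    refine hh.trans (mul_le_mul_of_nonneg_right ?_ hJ0.le)
    rw [hc2]
    exact min_le_right _ _
  have hhc1 : (h : ℝ) ≤ c₁ * J := by
    refine hh.trans (mul_le_mul_of_nonneg_right ?_ hJ0.le)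
    rw [hc2]
    exact min_le_left _ _
  obtain ⟨a', ha'⟩ : ∃ a', a' = K - ((h + 2 + 3) * (k + 1) + (h + 2)) := ⟨_, rfl⟩
  have hroom : (h + 2 + 3) * (k + 1) + (h + 2) ≤ K := by
    have : (((h + 2 + 3) * (k + 1) + (h + 2) : ℕ) : ℝ) ≤ K := by
      push_cast
      exact lin_room hk hN0 hhc j6 hKr
    exact_mod_cast this
  have haK : a' + (h + 2 + 3) * (k + 1) + (h + 2) ≤ K := by omega
  have e4 : (4 : ℝ) / 2 ^ (h + 2) = 1 / 2 ^ h := by
    rw [pow_add]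
    field_simp
    norm_num
  have hrow := hrows J (F.res A' True hlaw) K a' (h + 2) N w₀ (τ' * J) ρ (by omega) hTm
    (by omega) haK (by
    intro i hi ω hω v B
    have hdet : Det (Pool.Agent.H49.Ent.cond F.p A' True) (fun ω => (Fam.pt F ω, l ω))
        (fun ω => (F.c (w₀ + i * K) ω, (F.c (w₀ + (i + 1) * K) ω,
          (F.X (w₀ + (i + 1) * K) ω, F.T1 (w₀ + (i + 1) * K) ω)))) := by
      intro ω ω' _ _ e
      have b := Prod.ext_iff.mp e
      have b1 : F.X J ω = F.X J ω' ∧ F.W ω = F.W ω' := Prod.ext_iff.mp b.1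
      have b2 : F.T ω = F.T ω' ∧ F.Z ω = F.Z ω' := Prod.ext_iff.mp b1.2
      have b3 : l ω = l ω' := b.2
      have b4 : F.c (w₀ + i * K) ω = F.c (w₀ + i * K) ω' := by
        have := congrFun b3 ⟨i, by omega⟩
        rw [hl] at this
        exact this
      have b5 : F.c (w₀ + (i + 1) * K) ω = F.c (w₀ + (i + 1) * K) ω' := by
        have := congrFun b3 ⟨i + 1, by omega⟩
        rw [hl] at this
        exact this
      have b6 : F.X (w₀ + (i + 1) * K) ω = F.X (w₀ + (i + 1) * K) ω' :=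
        Pool.STK.B58.fl_fine (hlw ⟨i + 1, by omega⟩) b1.1
      have b7 : F.T1 (w₀ + (i + 1) * K) ω = F.T1 (w₀ + (i + 1) * K) ω' := by
        unfold Fam.T1
        rw [b2.1]
      exact Prod.ext b4 (Prod.ext b5 (Prod.ext b6 b7))
    have nc := (c2'.coarse hlaw hdet).cond_le hlaw hω (v, B)
    rw [e4, hρ]
    exact nc)
  have hJw : ((J : ℝ) - w₀) = N * K := by
    have : ((w₀ + N * K : ℕ) : ℝ) = J := by rw [hw1]
    push_cast at this
    linarith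
  rw [hJw] at h3
  rw [hw1] at hrow
  -- the upper bound
  have h4 : CH (F.res A' True hlaw).p ((F.res A' True hlaw).X J)
      (fun ω => ((F.res A' True hlaw).X w₀ ω, (F.res A' True hlaw).W ω)) ≤
      ((k + 1) * Real.log 2 - g) * (N * K) + 2 * η * J + τ' * J + 0 := by
    have f0 : 0 ≤ τ' * J := by positivity
    refine le_trans h3 ?_
    push_cast
    rw [hη]
    linarith
  refine lin_arith (k := k) (g := g) (N := N) (K := K) (a' := a') (J := J) (h' := (h : ℝ) + 2)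
    (e := τ' * J) (ρ := ρ) (η := η) (L2 := Real.log 2) (C₁ := C₁) (C₃ := 0) (c := c₁)
    hk hg0 hN0.le (by positivity) hl2.le ?_ ?_ ?_ hK3 hK4r hJ0.le hrow h4 hN2 ?_ ?_ ?_ ?_ ?_ ?_ hJ0
  · exact lin_cast (by omega)
  · have : a' ≤ K := by omega
    exact_mod_cast this
  · rw [hρ]; positivity
  · linarith
  · rw [hc]
    refine le_of_eq ?_
    field_simp
  · -- `ρ` is small
    have f1 : Lρ ≤ κ' / 2 := by linarith
    have f2 : ρ ≤ Real.exp (-Lρ) := by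
      rw [hρ]
      exact Real.exp_le_exp.2 (by linarith)
    have f3 : Real.exp (-Lρ) = 1 / ((k + 2) ^ 2 * Real.log 2 * 64 / g + 1) := by
      rw [hLρ, Real.exp_neg, Real.exp_log (by positivity), one_div]
    rw [f3] at f2
    calc ((k : ℝ) + 2) ^ 2 * Real.log 2 * ρ ≤ (k + 2) ^ 2 * Real.log 2 *
          (1 / ((k + 2) ^ 2 * Real.log 2 * 64 / g + 1)) :=
          mul_le_mul_of_nonneg_left f2 (by positivity)
      _ ≤ g / 64 := by
          rw [mul_one_div, div_le_iff₀ (by positivity)]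
          have : g / 64 * ((k + 2) ^ 2 * Real.log 2 * 64 / g + 1) =
            (k + 2) ^ 2 * Real.log 2 + g / 64 := by
            field_simp
          rw [this]
          linarith
  · have f1 : N * ((k + 3) * (τ' * J)) + τ' * J = (τ' * (N * (k + 3) + 1)) * J := by ring
    rw [f1]
    refine mul_le_mul_of_nonneg_right ?_ hJ0.le
    have hτN := hτ'.le
    rw [le_div_iff₀ (by positivity)] at hτN
    linarith
  · rw [hη]
    linarith
  · rw [← hCst]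
    linarith



/-- **Flat fans in a class whose tail is not full.** -/
theorem hyp_of_tls {k : ℕ} {S : FCl (k + 1)} (hT : TLS S) :
    ∃ c : ℝ, 0 < c ∧ Clg S (fun J F A => ∀ h : ℕ, (h : ℝ) ≤ c * J →
      Hyp (1 / 2 ^ h) (Fam.pt F) F.d A) := by
  classical
  obtain ⟨r, hr, htl⟩ := hT
  obtain ⟨c₁, hc₁, hcore⟩ := hyp_core k hr
  refine ⟨c₁, hc₁, Clg.mp ?_ (clg_half (htl (r / 64) (by positivity)))⟩
  refine Clg.one ⟨1, fun J F _ => Hyp (1 / 2 ^ ⌊c₁ * J⌋₊) (Fam.pt F) F.d,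
    fun _ _ _ => Hyp.hered _ _ _⟩ fun κ hκ => ?_
  obtain ⟨τ, hτ, J₁, h⟩ := hcore κ hκ
  refine ⟨τ, hτ, J₁, fun J hJ F A hS hSb htail q hq => ?_⟩
  have h1 : Hyp (1 / 2 ^ ⌊c₁ * J⌋₊) (Fam.pt F) F.d A :=
    h J hJ F A (S.tr hS.1) (S.tm hS.1) (S.rb hS.1) hS.2 htail ⌊c₁ * J⌋₊
      (Nat.floor_le (by positivity)) (hSb 0)
  have h2 : q ≤ ⌊c₁ * J⌋₊ := Nat.le_floor hq
  obtain ⟨ζ, hζ⟩ := h1
  refine ⟨ζ, fun ω hω => ?_⟩
  obtain ⟨c, hc⟩ := hζ ω hω
  exact ⟨c, fun j => (hc j).trans (inv_mono h2)⟩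

/-- **The chart of a class whose tail is not full.** -/
theorem chs_of_tls {k : ℕ} {S : FCl (k + 1)} (hT : TLS S) : CHS S := chs_of_hyp (hyp_of_tls hT)

end Pool.Agent.H60.PB
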